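import Mathlib
import Pool.Agent.V11278.SatFiveK
import Pool.Agent.V11278.DegMono5
import Pool.Agent.U67.SM.E

/-!
# MP_c0533c_co: `h(n,k) > h(n,5)` for every `k ≥ 6` and all large `n`

In particular Q1 holds at `k = 5`: `h(n,6) ≥ h(n,5)` for all large `n`, with strict inequality. The
reason is the bound `h(n,k) ≥ (19 n - 14) / 16` for every `k ≥ 6` (the known lower bound is `n`),
together with the exact value of `h(n,5)`, which is `7 n / 6 + O(1)`.

The proof of the bound is a discharging argument. Let `M` be a vertex of largest degree. Adding an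
edge from a vertex `u` to `M` can only help through the raised degree of `u` or through a long
descending path from `u`. Hence, apart from the neighbours of `M`, all degrees are at least two,
a vertex of degree two has a neighbour of degree three, no three consecutive vertices have degree
two, and there are conditions on the threads at a vertex of degree three.

Definitions (from `Pool.Agent.V11278.DegMono`):
* `dg G v` is the number of neighbours of `v`;
* `IsDMP G l`: the list `l` has distinct entries, consecutive entries are adjacent, and the degrees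
  are nondecreasing along `l` or nonincreasing along `l`;
* `mp G` is the largest length (number of vertices) of such a list;
* `KSat k G`: `mp G < k` and `k ≤ mp (G ⊔ edge u v)` for all non-adjacent `u ≠ v`.
-/

namespace Pool.Agent.Results.MP_c0533c_co.MonotoneAtFive

open Pool.Agent.V11278.DegMono Pool.Agent.V11278.SatFive Pool.Agent.U67.SM Filter Topology

/-- The saturation number `h(n,k)`: the least number of edges of a `k`-saturated graph on `n`
vertices. -/
noncomputable def h (n k : ℕ) : ℕ :=
  sInf {e | ∃ G : SimpleGraph (Fin n), KSat k G ∧ G.edgeSet.ncard = e}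

/-- For all `k ≥ 6` and `n ≥ 16` every `k`-saturated graph on `n` vertices has at least
`(19 n - 14) / 16` edges, and at least `h(n,5) + (n - 130) / 48`. For every `k ≥ 6` and all large
`n` there are `5`-saturated and `k`-saturated graphs on `n` vertices, and
`h(n,5) + (n - 130) / 48 ≤ h(n,k)`. -/
theorem result :
    (∀ k n : ℕ, 6 ≤ k → 16 ≤ n → ∀ G : SimpleGraph (Fin n), KSat k G →
      19 * n ≤ 16 * G.edgeSet.ncard + 14 ∧ 48 * h n 5 + n ≤ 48 * G.edgeSet.ncard + 130) ∧
    (∀ k : ℕ, 6 ≤ k → ∃ n₀, ∀ n, n₀ ≤ n →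
      (∃ G : SimpleGraph (Fin n), KSat 5 G) ∧ (∃ G : SimpleGraph (Fin n), KSat k G) ∧
      48 * h n 5 + n ≤ 48 * h n k + 130) := by
  have key : ∀ k n : ℕ, 6 ≤ k → 16 ≤ n → ∀ G : SimpleGraph (Fin n), KSat k G →
      19 * n ≤ 16 * G.edgeSet.ncard + 14 ∧ 48 * h n 5 + n ≤ 48 * G.edgeSet.ncard + 130 := by
    intro k n hk hn G hG
    have h1 := degree_sum (sa_of_kSat hG) hk (by simpa using hn)
    rw [sum_dg_eq, Fintype.card_fin] at h1
    have h6 : h n 5 = vl n := (isLeast_vl n).csInf_eq
    have h7 : vl n ≤ (7 * n + 5) / 6 + 1 := by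
      unfold vl
      split_ifs <;> omega
    rw [h6]
    omega
  refine ⟨key, fun k hk => ?_⟩
  obtain ⟨n₀, hn₀⟩ := exists_sat k (by omega)
  refine ⟨n₀ + 16, fun n hn => ?_⟩
  obtain ⟨G, hG, -⟩ := hn₀ n (by omega)
  have hne : {e | ∃ G : SimpleGraph (Fin n), KSat k G ∧ G.edgeSet.ncard = e}.Nonempty :=
    ⟨_, G, hG, rfl⟩
  obtain ⟨G1, hG1, he1⟩ := Nat.sInf_mem hne
  have h1 := (key k n hk (by omega) G1 hG1).2
  obtain ⟨G5, hG5, -⟩ := (isLeast_vl n).1
  have h8 : h n k = G1.edgeSet.ncard := he1.symm
  rw [h8]
  exact ⟨⟨G5, hG5⟩, ⟨G, hG⟩, h1⟩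

end Pool.Agent.Results.MP_c0533c_co.MonotoneAtFive
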